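import Pool.Agent.Helper20.NS5.Out
import Pool.Agent.Helper2.NS5.CO2

open Pool.Agent.Helper65.LinSpace Pool.Agent.Helper20.NS5
open Pool.Agent.Helper20.MH (MultiHead)

namespace Pool.Agent.Results.MP_c578c8_lc.Incompressible

/-- **Incompressibility of linear space.** A machine `A` with the input word `w` (of length `n`)
talks to a partner who knows everything except `w`. `A` is a Turing machine with `K` heads on tapes of
dimension `D` (`MultiHead D K`; for `D = 1` these include the multitape Turing machines) with an
advice word `α` of length `m`. `A` sends `q = i + 1` queries; the query after the answers `u` is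
`query A (c n) α w u`, the set of the words `v` with `c n` letters for which `A` accepts `w` with the
guess `α u v` (a string with `2 ^ (c n)` letters, of which `A` computes any single letter within
the bounds). The partner answers every query with yes or no; his answer is an arbitrary function of
the list of all queries up to this one (yes if this list is in `B`, see `conversation`). The last
answer is the result. `Decides A (c n) C n i α B M S` says that this works on the set `S` of words of
length `n`: in the computation of the queries which are really asked, `A` keeps the bounds
`Within C`, and the last answer is yes if and only if `w ∈ M`. The number `T = lists …` is the number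
of different lists of queries which occur for the words of `S`. The bounds `Within C` are, with `s` the
maximum of the lengths of the words in the cells, states and addresses, `r` the number of steps,
`l = ⌊log₂ n⌋ + 1` and `p = D / (2 D - 1)`: `r (s + l) ^ p l ^ 4 ≤ C (n + 1) ^ (1 + p)` and
`(s + l) l ^ 2 ≤ C (n + 1)`; for multitape Turing machines this is time `C n^2 / log^5 n`.

The theorem says: for all `c` and `k ≥ 1` there is a language `L` in `DSPACE(n)` such that for all `A` and
`C`: (1) if `M` is `L` or its complement and `A` decides `M` on `S` with the help of the partner, then
`|S| ≤ 2^(n-1) + c' (m + q) 2^(n/2) (2^(n + m + 4 q) T^k)^(1 / (2 k + 2))`.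
(2) In particular, for all `ε > 0` there is `δ > 0` such that for large `n`, if `T ≤ 2^((1 - 2 ε) n)` (for
example if the list of all queries is always given by at most `(1 - 3 ε) n` bits) and `m + 4 q ≤ ε k n`,
then `|S| ≤ 2^(n-1) + 2^((1 - δ) n)`: the partner is of no use. If `A` may send `n` bits it can send `w`.

Answers with several letters can be asked letter by letter, with empty queries, which do not change
`T`. Machines with random letters are covered by the advice. The case `q = 1` concerns many-one
reductions to arbitrary languages (instance compression): by (1), a reduction which is right on all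
words of length `n` has at least `c'' 2^(n - m / k) / (m + 1)^4` different values. Theorems of this kind
are known for polynomial time and NP-hard languages under the assumption that coNP is not contained
in NP/poly (Fortnow and Santhanam, Dell and van Melkebeek); this one is unconditional, for linear
space and nearly quadratic time. -/
theorem result (c k : ℕ) (hk : 0 < k) :
    ∃ L : Set (List Bool), DLINSPACE L ∧
      ∀ (D K : ℕ), 0 < D → 0 < K → ∀ (A : MultiHead D K) (C : ℝ),
        (∃ c' : ℝ, ∀ (n i : ℕ) (α : List Bool) (B : Set (List (Set (List Bool))))
          (M S : Set (List Bool)), M = L ∨ M = Lᶜ → Decides A (c * n) C n i α B M S →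
          (S.ncard : ℝ) ≤ 2 ^ n / 2 + c' * ((α.length : ℝ) + i + 1) * 2 ^ ((n : ℝ) / 2) *
            (2 ^ ((n : ℝ) + α.length + 4 * (i + 1)) *
              (lists A (c * n) i α B S : ℝ) ^ k) ^ (1 / (2 * (k : ℝ) + 2))) ∧
        ∀ ε : ℝ, 0 < ε → ∃ δ : ℝ, 0 < δ ∧ ∃ n₀ : ℕ, ∀ n ≥ n₀,
          ∀ (i : ℕ) (α : List Bool) (B : Set (List (Set (List Bool))))
          (M S : Set (List Bool)), M = L ∨ M = Lᶜ → Decides A (c * n) C n i α B M S →
          (α.length : ℝ) + 4 * (i + 1) ≤ ε * k * n →
          (lists A (c * n) i α B S : ℝ) ≤ 2 ^ ((1 - 2 * ε) * (n : ℝ)) →
          (S.ncard : ℝ) ≤ 2 ^ n / 2 + 2 ^ ((1 - δ) * (n : ℝ)) :=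
  partner_out Pool.Agent.Helper2.NS5.co2 c k hk

end Pool.Agent.Results.MP_c578c8_lc.Incompressible
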