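import Pool.Agent.Helper20.NS5.Out
import Pool.Agent.Helper96.NS5.CO1

open Pool.Agent.Helper65.LinSpace Pool.Agent.Helper20.NS5
open Pool.Agent.Helper20.MH (MultiHead)

namespace Pool.Agent.Results.MP_c578c8_lc.NoSparseHardSet

/-- **Linear space is not reducible to sets with few elements.** Consider adaptive (Turing) reductions
to an arbitrary set `B`, computed by a Turing machine `A` with `K` heads on tapes of dimension `D`
(`MultiHead D K`; for `D = 1` these include the multitape Turing machines). The query which `A` asks
on the input word `w` after the answers `u` is `query A (c n) α w u`, the set of the words `v` with `c n`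
letters for which `A` accepts `w` with the guess `α u v`; this is a string with `2 ^ (c n)` letters, of
which `A` computes any single letter within the bounds. (Words of any length up to about
`2 ^ (c n)` can be coded in this way.) `α` is an advice word of length `m`. The answer to a query is
yes if it is in `B` (`answers`), and the reduction with `q = i + 1` queries accepts `w` if the last answer is
yes. (Every way to use the answers can be brought into this form with one more query, to one of two
fixed strings, one in `B` and one not in `B`.) `Reduces A (c n) C n i α B M S` says that the reduction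
works on the set `S` of words of length `n`: in the computation of the queries which are really asked,
`A` keeps the bounds `Within C`, and the last answer is yes if and only if `w ∈ M`. The number
`N = asked …` is the number of the elements of `B` which are asked for words of `S`. The bounds
`Within C` are, with `s` the maximum of the lengths of the words in the cells, states and addresses, `r` the
number of steps, `l = ⌊log₂ n⌋ + 1` and `p = D / (2 D - 1)`:
`r (s + l) ^ p l ^ 4 ≤ C (n + 1) ^ (1 + p)` and `(s + l) l ^ 2 ≤ C (n + 1)`; for multitape Turing machines
this is time `C n^2 / log^5 n`.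

The theorem says: for all `c` and `k` there is a language `L` in `DSPACE(n)` such that for all `A` and `C`:
(1) if `M` is `L` or its complement and the reduction works on `S`, then
`|S| ≤ 2^(n-1) + c'^q (m + 1) 2^(n/2) (2^(n + m) (N + 1)^(q k))^(1 / (2 k + 2))`.
(2) In particular no sparse set is hard for `DSPACE(n)` under such reductions with at most
`δ n / log₂ n` queries of polynomial length, even on average and with `(k - ε) n` bits of advice: for
all `a` and `ε > 0` there is `δ > 0` such that for large `n`, if `N ≤ n^a`, `q log₂ n ≤ δ n` and
`m ≤ (k - ε) n`, then `|S| ≤ 2^(n-1) + 2^((1 - δ) n)`. Indeed then `c'^q (m + 1) ≤ 2^(O(δ n))`,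
`(N + 1)^(q k / (2 k + 2)) ≤ 2^(O(δ n))` and `2^(n/2) 2^((n + m) / (2 k + 2)) ≤ 2^(n - ε n / (2 k + 2))`.

From (1) one also gets: for many-one reductions (`q = 1`) which are right on all words of length `n`, `B`
contains at least `c'' 2^(n - m / k) / (m + 1)^4 - 1` of the values, and so does the complement of `B`
(use the complement of `M`): there are many values on `L` and on its complement. It
is known that Q1 has a positive answer if some sparse set is hard for `PSPACE` under polynomial-time
many-one reductions; here this is excluded for fast reductions without any hypothesis. For the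
class `E` and polynomial-time reductions such theorems are known (Watanabe, Lutz and Mayordomo,
Fu). -/
theorem result (c k : ℕ) :
    ∃ L : Set (List Bool), DLINSPACE L ∧
      ∀ (D K : ℕ), 0 < D → 0 < K → ∀ (A : MultiHead D K) (C : ℝ),
        (∃ c' : ℝ, ∀ (n i : ℕ) (α : List Bool) (B : Set (Set (List Bool)))
          (M S : Set (List Bool)), M = L ∨ M = Lᶜ → Reduces A (c * n) C n i α B M S →
          (S.ncard : ℝ) ≤ 2 ^ n / 2 + c' ^ (i + 1) * ((α.length : ℝ) + 1) * 2 ^ ((n : ℝ) / 2) *
            (2 ^ ((n : ℝ) + α.length) * ((asked A (c * n) i α B S : ℝ) + 1) ^
              ((i + 1) * k)) ^ (1 / (2 * (k : ℝ) + 2))) ∧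
        ∀ (a : ℕ) (ε : ℝ), 0 < ε → ∃ δ : ℝ, 0 < δ ∧ ∃ n₀ : ℕ, ∀ n ≥ n₀,
          ∀ (i : ℕ) (α : List Bool) (B : Set (Set (List Bool)))
          (M S : Set (List Bool)), M = L ∨ M = Lᶜ → Reduces A (c * n) C n i α B M S →
          ((i : ℝ) + 1) * Real.logb 2 n ≤ δ * n → (α.length : ℝ) ≤ (k - ε) * n →
          (asked A (c * n) i α B S : ℝ) ≤ (n : ℝ) ^ a →
          (S.ncard : ℝ) ≤ 2 ^ n / 2 + 2 ^ ((1 - δ) * (n : ℝ)) :=
  sparse_out Pool.Agent.Helper96.NS5.co1 c k

end Pool.Agent.Results.MP_c578c8_lc.NoSparseHardSet
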